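import Mathlib

/-!
# Saturated finitely generated monoids are intersections of half spaces
-/

set_option autoImplicit false

open scoped BigOperators

namespace Pool.Agent.TGh53

/-- Farkas (Bartl's induction). -/
theorem farkasQ {V : Type*} [AddCommGroup V] [Module ℚ V] : ∀ (m : ℕ)
    (A : Fin m → V →ₗ[ℚ] ℚ) (c : V →ₗ[ℚ] ℚ),
    (∀ x, (∀ i, A i x ≤ 0) → c x ≤ 0) →
    ∃ l : Fin m → ℚ, (∀ i, 0 ≤ l i) ∧ ∀ x, c x = ∑ i, l i * A i x := by
  intro m
  induction m with
  | zero =>
    intro A c h
    refine ⟨fun _ => 0, fun _ => le_rfl, fun x => ?_⟩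
    have h1 := h x (fun i => i.elim0)
    have h2 := h (-x) (fun i => i.elim0)
    simp only [map_neg] at h2
    simp
    linarith
  | succ m ih =>
    intro A c h
    by_cases hc : ∀ x, (∀ i : Fin m, A i.succ x ≤ 0) → c x ≤ 0
    · obtain ⟨l, hl, hx⟩ := ih (fun i => A i.succ) c hc
      refine ⟨Fin.cons 0 l, ?_, fun x => ?_⟩
      · intro i
        refine Fin.cases ?_ ?_ i
        · simp
        · intro j; simpa using hl j
      · rw [Fin.sum_univ_succ]
        simp [hx x]
    · push Not at hc
      obtain ⟨x0, hx0, hcx0⟩ := hc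
      have hA0 : 0 < A 0 x0 := by
        by_contra hneg
        push Not at hneg
        have := h x0 (fun i => by
          refine Fin.cases hneg ?_ i
          intro j; exact hx0 j)
        linarith
      set z : V := (A 0 x0)⁻¹ • x0 with hz
      have hz0 : A 0 z = 1 := by
        rw [hz, map_smul, smul_eq_mul, inv_mul_cancel₀ hA0.ne']
      have hzi : ∀ i : Fin m, A i.succ z ≤ 0 := by
        intro i
        rw [hz, map_smul, smul_eq_mul]
        exact mul_nonpos_of_nonneg_of_nonpos (inv_nonneg.2 hA0.le) (hx0 i)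
      obtain ⟨l, hl, hx⟩ := ih (fun i => A i.succ - (A i.succ z) • A 0) (c - (c z) • A 0) (by
        intro x hxx
        have key : c (x - (A 0 x) • z) ≤ 0 := by
          apply h
          intro i
          refine Fin.cases ?_ ?_ i
          · rw [map_sub, map_smul, hz0, smul_eq_mul, mul_one, sub_self]
          · intro j
            have := hxx j
            simp only [LinearMap.sub_apply, LinearMap.smul_apply, smul_eq_mul] at this
            rw [map_sub, map_smul, smul_eq_mul]
            linarith [mul_comm (A 0 x) (A j.succ z)]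
        rw [map_sub, map_smul, smul_eq_mul] at key
        simp only [LinearMap.sub_apply, LinearMap.smul_apply, smul_eq_mul]
        linarith [mul_comm (A 0 x) (c z)])
      have hzc : 0 < c z := by
        rw [hz, map_smul, smul_eq_mul]
        exact mul_pos (inv_pos.2 hA0) hcx0
      refine ⟨Fin.cons (c z - ∑ i, l i * A i.succ z) l, ?_, fun x => ?_⟩
      · intro i
        refine Fin.cases ?_ ?_ i
        · have : ∑ i, l i * A i.succ z ≤ 0 :=
            Finset.sum_nonpos fun i _ => mul_nonpos_of_nonneg_of_nonpos (hl i) (hzi i)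
          simp only [Fin.cons_zero]
          linarith
        · intro j; simpa using hl j
      · rw [Fin.sum_univ_succ]
        have := hx x
        simp only [LinearMap.sub_apply, LinearMap.smul_apply, smul_eq_mul, mul_sub] at this
        rw [Finset.sum_sub_distrib] at this
        simp only [Fin.cons_zero, Fin.cons_succ, sub_mul, Finset.sum_mul]
        have h3 : ∑ i : Fin m, l i * (A i.succ z * A 0 x) = ∑ i : Fin m, l i * A i.succ z * A 0 x :=
          Finset.sum_congr rfl fun i _ => by ring
        rw [h3] at this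
        linarith

variable {ι : Type*} [Fintype ι]

/-- `T` is saturated: `n m ∈ T`, `n > 0` implies `m ∈ T`. -/
def Sat (T : AddSubmonoid (ι → ℤ)) : Prop := ∀ (m : ι → ℤ) (n : ℕ), 0 < n → n • m ∈ T → m ∈ T

/-- The pairing. -/
def pr (l m : ι → ℤ) : ℤ := ∑ i, l i * m i

theorem pr_add (l m m' : ι → ℤ) : pr l (m + m') = pr l m + pr l m' := by
  simp only [pr, Pi.add_apply, mul_add, Finset.sum_add_distrib]

theorem pr_zero (l : ι → ℤ) : pr l 0 = 0 := by simp [pr]

theorem pr_nsmul (l m : ι → ℤ) (n : ℕ) : pr l (n • m) = n * pr l m := by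
  simp only [pr, Finset.mul_sum]
  refine Finset.sum_congr rfl fun i _ => ?_
  rw [Pi.smul_apply, nsmul_eq_mul]
  ring

theorem pr_sub (l m m' : ι → ℤ) : pr l (m - m') = pr l m - pr l m' := by
  simp only [pr, Pi.sub_apply, mul_sub, Finset.sum_sub_distrib]

theorem exists_den (f : ι → ℚ) : ∃ D : ℕ, 0 < D ∧ ∀ i, ∃ z : ℤ, (D : ℚ) * f i = z := by
  classical
  refine ⟨∏ i, (f i).den, Finset.prod_pos fun i _ => (f i).den_pos, fun i => ?_⟩
  refine ⟨(∏ j ∈ Finset.univ.erase i, ((f j).den : ℤ)) * (f i).num, ?_⟩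
  rw [← Finset.mul_prod_erase Finset.univ (fun i => (f i).den) (Finset.mem_univ i)]
  push_cast
  have h := Rat.num_div_den (f i)
  have hd : ((f i).den : ℚ) ≠ 0 := by exact_mod_cast (f i).den_pos.ne'
  have h' : ((f i).den : ℚ) * f i = (f i).num := by
    nth_rewrite 2 [← h]
    field_simp
  calc ((f i).den : ℚ) * (∏ j ∈ Finset.univ.erase i, ((f j).den : ℚ)) * f i
      = (∏ j ∈ Finset.univ.erase i, ((f j).den : ℚ)) * (((f i).den : ℚ) * f i) := by ring
    _ = _ := by rw [h']

/-- A point outside a finitely generated saturated monoid is separated from it. -/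
theorem exists_sep {T : AddSubmonoid (ι → ℤ)} (hT : T.FG) (hs : Sat T) {u : ι → ℤ} (hu : u ∉ T) :
    ∃ l : ι → ℤ, (∀ t ∈ T, 0 ≤ pr l t) ∧ pr l u < 0 := by
  classical
  obtain ⟨S, hS⟩ := hT
  set m := S.card
  set g : Fin m → (ι → ℤ) := fun i => (S.equivFin.symm i : ι → ℤ) with hg
  have hgS : ∀ i, g i ∈ S := fun i => (S.equivFin.symm i).2
  have hgsurj : ∀ s ∈ S, ∃ i, g i = s := fun s hs => ⟨S.equivFin ⟨s, hs⟩, by simp [hg]⟩
  have hgT : ∀ i, g i ∈ T := fun i => by
    rw [← hS]
    exact AddSubmonoid.subset_closure (hgS i)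
  set L : (ι → ℤ) → (ι → ℚ) →ₗ[ℚ] ℚ := fun t =>
    ∑ i, (-(t i : ℚ)) • (LinearMap.proj i : (ι → ℚ) →ₗ[ℚ] ℚ) with hL
  have hLa : ∀ t x, L t x = -∑ i, (t i : ℚ) * x i := by
    intro t x
    simp [hL, LinearMap.sum_apply]
  by_cases hc : ∀ x, (∀ i, L (g i) x ≤ 0) → L u x ≤ 0
  · exfalso
    apply hu
    obtain ⟨lam, hlam, hx⟩ := farkasQ m (fun i => L (g i)) (L u) hc
    obtain ⟨D, hD, hz⟩ := exists_den lam
    choose z hz using hz
    have hz0 : ∀ i, 0 ≤ z i := fun i => by
      have h1 : (0 : ℚ) ≤ z i := by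
        rw [← hz i]
        exact mul_nonneg (Nat.cast_nonneg _) (hlam i)
      exact_mod_cast h1
    refine hs u D hD ?_
    have h1 : D • u = ∑ i, (z i).toNat • g i := by
      funext j
      have h2 := hx (Pi.single j 1)
      simp only [hLa, Pi.single_apply, mul_ite, mul_one, mul_zero, Finset.sum_ite_eq',
        Finset.mem_univ, if_true, mul_neg, Finset.sum_neg_distrib, neg_inj] at h2
      rw [Pi.smul_apply, Finset.sum_apply]
      have h3 : ((D • u j : ℤ) : ℚ) = ((∑ i, (z i).toNat • g i j : ℤ) : ℚ) := by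
        rw [nsmul_eq_mul]
        push_cast
        rw [h2, Finset.mul_sum]
        refine Finset.sum_congr rfl fun i _ => ?_
        rw [← mul_assoc, hz i, nsmul_eq_mul]
        have h4 : (((z i).toNat : ℤ) : ℚ) = (z i : ℚ) := by
          rw [Int.toNat_of_nonneg (hz0 i)]
        push_cast
        rw [← h4]
        push_cast
        ring
      exact_mod_cast h3
    rw [h1]
    exact T.sum_mem fun i _ => T.nsmul_mem (hgT i) _
  · push Not at hc
    obtain ⟨x, hx, hux⟩ := hc
    obtain ⟨D, hD, hz⟩ := exists_den x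
    choose z hz using hz
    have hD' : (0 : ℚ) < D := by exact_mod_cast hD
    have key : ∀ t : ι → ℤ, ((pr z t : ℤ) : ℚ) = D * ∑ i, (t i : ℚ) * x i := by
      intro t
      rw [pr, Finset.mul_sum]
      push_cast
      refine Finset.sum_congr rfl fun i _ => ?_
      rw [← hz i]
      ring
    refine ⟨z, fun t ht => ?_, ?_⟩
    · rw [← hS] at ht
      induction ht using AddSubmonoid.closure_induction with
      | mem t ht =>
        obtain ⟨i, rfl⟩ := hgsurj t ht
        have h1 := hx i
        rw [hLa] at h1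
        have h2 : (0 : ℚ) ≤ pr z (g i) := by
          rw [key]
          exact mul_nonneg hD'.le (by linarith)
        exact_mod_cast h2
      | zero => rw [pr_zero]
      | add a b _ _ ha hb => rw [pr_add]; exact add_nonneg ha hb
    · rw [hLa] at hux
      have h2 : ((pr z u : ℤ) : ℚ) < 0 := by
        rw [key]
        exact mul_neg_of_pos_of_neg hD' (by linarith)
      exact_mod_cast h2

end Pool.Agent.TGh53
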