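import Pool.Agent.Lib.TG_h53.Trace
import Pool.Agent.Lib.TG_h53.Farkas

/-!
# TANK G: roots of monomials over a toric ring
-/

set_option autoImplicit false

open scoped BigOperators
open Polynomial

namespace Pool.Agent.TGh53

open Pool.Agent.LU2 (locV le_locV locV_mono locV_le locV_inv locV_mem locV_locV)
open Pool.Agent.TG

universe u

section Hahn

variable {k : Type u} [Field k] {ι : Type*} [Fintype ι] {F : Type*} [Field F]
  [Algebra (MvPolynomial ι k) F]

/-- `X_i ↦ X_i t^{l_i}`. -/
noncomputable def ps (k : Type u) [Field k] {ι : Type*} [Fintype ι] (F : Type*) [Field F]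
    [Algebra (MvPolynomial ι k) F] (l : ι → ℤ) : MvPolynomial ι k →+* HahnSeries ℤ F :=
  MvPolynomial.eval₂Hom ((HahnSeries.C (Γ := ℤ) (R := F)).comp
      ((algebraMap (MvPolynomial ι k) F).comp MvPolynomial.C)) fun i =>
    HahnSeries.single (l i) (algebraMap (MvPolynomial ι k) F (MvPolynomial.X i))

theorem single_prod {R : Type*} [CommRing R] {α : Type*} (s : Finset α) (a : α → ℤ) (r : α → R) :
    ∏ i ∈ s, HahnSeries.single (a i) (r i) = HahnSeries.single (∑ i ∈ s, a i) (∏ i ∈ s, r i) := by
  classical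
  induction s using Finset.induction_on with
  | empty => simp
  | insert i s hi ih =>
    rw [Finset.prod_insert hi, Finset.sum_insert hi, Finset.prod_insert hi, ih,
      HahnSeries.single_mul_single]

theorem ps_monomial (l : ι → ℤ) (n : ι →₀ ℕ) (c : k) :
    ps k F l (MvPolynomial.monomial n c) = HahnSeries.single (pr l (fun i => (n i : ℤ)))
      (algebraMap (MvPolynomial ι k) F (MvPolynomial.monomial n c)) := by
  rw [ps, MvPolynomial.coe_eval₂Hom, MvPolynomial.eval₂_monomial,
    Finsupp.prod_fintype _ _ (fun i => pow_zero _)]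
  simp only [HahnSeries.single_pow]
  rw [single_prod, RingHom.comp_apply, HahnSeries.C_apply, HahnSeries.single_mul_single]
  have hA : (0 : ℤ) + ∑ i, n i • l i = pr l (fun i => (n i : ℤ)) := by
    rw [zero_add, pr]
    refine Finset.sum_congr rfl fun i _ => ?_
    rw [nsmul_eq_mul, mul_comm]
  have hB : ((algebraMap (MvPolynomial ι k) F).comp MvPolynomial.C) c *
      ∏ i, algebraMap (MvPolynomial ι k) F (MvPolynomial.X i) ^ n i
      = algebraMap (MvPolynomial ι k) F (MvPolynomial.monomial n c) := by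
    rw [MvPolynomial.monomial_eq, map_mul, Finsupp.prod_fintype _ _ (fun i => pow_zero _), map_prod]
    simp only [map_pow]
    rfl
  rw [hA, hB]

variable [IsFractionRing (MvPolynomial ι k) F]

theorem ps_coeff (l : ι → ℤ) (p : MvPolynomial ι k) {n : ι →₀ ℕ} (hn : n ∈ p.support) :
    (ps k F l p).coeff (pr l (fun i => (n i : ℤ))) ≠ 0 := by
  classical
  have h1 : (ps k F l p).coeff (pr l (fun i => (n i : ℤ)))
      = algebraMap (MvPolynomial ι k) F (∑ m ∈ p.support,
        if pr l (fun i => (m i : ℤ)) = pr l (fun i => (n i : ℤ)) then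
          MvPolynomial.monomial m (p.coeff m) else 0) := by
    conv_lhs => rw [p.as_sum, map_sum]
    rw [HahnSeries.coeff_sum, map_sum]
    refine Finset.sum_congr rfl fun m _ => ?_
    rw [ps_monomial]
    by_cases h : pr l (fun i => (m i : ℤ)) = pr l (fun i => (n i : ℤ))
    · rw [if_pos h, h, HahnSeries.coeff_single_same]
    · rw [if_neg h, HahnSeries.coeff_single_of_ne (Ne.symm h), map_zero]
  rw [h1]
  intro h2
  have h3 := (IsFractionRing.injective (MvPolynomial ι k) F) (h2.trans (map_zero _).symm)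
  have h4 := congrArg (MvPolynomial.coeff n) h3
  rw [MvPolynomial.coeff_sum, Finset.sum_eq_single n] at h4
  · rw [if_pos rfl, MvPolynomial.coeff_monomial, if_pos rfl, MvPolynomial.coeff_zero] at h4
    exact (MvPolynomial.mem_support_iff.1 hn) h4
  · intro m _ hm
    split_ifs
    · rw [MvPolynomial.coeff_monomial, if_neg hm]
    · rw [MvPolynomial.coeff_zero]
  · exact fun h => absurd hn h

theorem ps_injective (l : ι → ℤ) : Function.Injective (ps k F l) := by
  rw [injective_iff_map_eq_zero]
  intro p hp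
  by_contra h
  obtain ⟨n, hn⟩ := MvPolynomial.support_nonempty.2 h
  exact ps_coeff (F := F) l p hn (by rw [hp, HahnSeries.coeff_zero])

/-- The extension to the field of fractions. -/
noncomputable def Ps (k : Type u) [Field k] {ι : Type*} [Fintype ι] {F : Type*} [Field F]
    [Algebra (MvPolynomial ι k) F] [IsFractionRing (MvPolynomial ι k) F] (l : ι → ℤ) :
    F →+* HahnSeries ℤ F :=
  IsFractionRing.lift (ps_injective (k := k) (F := F) l)

theorem Ps_algebraMap (l : ι → ℤ) (p : MvPolynomial ι k) :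
    Ps k l (algebraMap _ F p) = ps k F l p := IsFractionRing.lift_algebraMap _ p

theorem Ps_ne_zero (l : ι → ℤ) {f : F} (hf : f ≠ 0) : Ps k l f ≠ 0 := fun h =>
  hf ((Ps k l).injective (h.trans (map_zero _).symm))

/-- The ring of the elements of order `≥ 0`. -/
noncomputable def Wl (k : Type u) [Field k] {ι : Type*} [Fintype ι] {F : Type*} [Field F]
    [Algebra (MvPolynomial ι k) F]
    [IsFractionRing (MvPolynomial ι k) F] (l : ι → ℤ) : ValuationSubring F where
  carrier := {f | f = 0 ∨ 0 ≤ (Ps k l f).order}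
  zero_mem' := Or.inl rfl
  one_mem' := Or.inr (by rw [map_one, HahnSeries.order_one])
  add_mem' := by
    intro a b ha hb
    by_cases hab : a + b = 0
    · exact Or.inl hab
    · refine Or.inr ?_
      rcases ha with rfl | ha
      · rw [zero_add] at hab ⊢
        exact hb.resolve_left hab
      · rcases hb with rfl | hb
        · rw [add_zero]
          exact ha
        · have h1 : Ps k l (a + b) ≠ 0 := Ps_ne_zero (k := k) l hab
          rw [map_add] at h1 ⊢
          exact (le_min ha hb).trans (HahnSeries.min_order_le_order_add h1)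
  mul_mem' := by
    intro a b ha hb
    rcases ha with rfl | ha
    · exact Or.inl (zero_mul _)
    · rcases hb with rfl | hb
      · exact Or.inl (mul_zero _)
      · by_cases ha0 : a = 0
        · exact Or.inl (by rw [ha0, zero_mul])
        · by_cases hb0 : b = 0
          · exact Or.inl (by rw [hb0, mul_zero])
          · refine Or.inr ?_
            rw [map_mul, HahnSeries.order_mul (Ps_ne_zero (k := k) l ha0)
              (Ps_ne_zero (k := k) l hb0)]
            exact add_nonneg ha hb
  neg_mem' := by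
    intro a ha
    rcases ha with rfl | ha
    · exact Or.inl neg_zero
    · refine Or.inr ?_
      rw [map_neg, HahnSeries.order_neg]
      exact ha
  mem_or_inv_mem' := by
    intro a
    by_cases ha : a = 0
    · exact Or.inl (Or.inl ha)
    · have h1 : Ps k l a ≠ 0 := Ps_ne_zero (k := k) l ha
      have h2 : Ps k l a⁻¹ ≠ 0 := Ps_ne_zero (k := k) l (inv_ne_zero ha)
      have h3 : (Ps k l a).order + (Ps k l a⁻¹).order = 0 := by
        rw [← HahnSeries.order_mul h1 h2, ← map_mul, mul_inv_cancel₀ ha, map_one,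
          HahnSeries.order_one]
      rcases le_total 0 (Ps k l a).order with h | h
      · exact Or.inl (Or.inr h)
      · exact Or.inr (Or.inr (by omega))

theorem mem_Wl {l : ι → ℤ} {f : F} : f ∈ Wl k l ↔ f = 0 ∨ 0 ≤ (Ps k l f).order := Iff.rfl

end Hahn

section Mon

variable {k K : Type u} [Field k] [Field K] [Algebra k K] {ι : Type*} [Fintype ι]

/-- The Laurent monomial `∏ x_i ^ m_i`. -/
def mon {K : Type*} [Field K] {ι : Type*} [Fintype ι] (x : ι → K) (m : ι → ℤ) : K :=
  ∏ i, x i ^ m i

theorem mon_zero (x : ι → K) : mon x 0 = 1 := by simp [mon]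

theorem mon_add {x : ι → K} (hx : ∀ i, x i ≠ 0) (m m' : ι → ℤ) :
    mon x (m + m') = mon x m * mon x m' := by
  rw [mon, mon, mon, ← Finset.prod_mul_distrib]
  exact Finset.prod_congr rfl fun i _ => zpow_add₀ (hx i) _ _

theorem mon_ne_zero {x : ι → K} (hx : ∀ i, x i ≠ 0) (m : ι → ℤ) : mon x m ≠ 0 :=
  Finset.prod_ne_zero_iff.2 fun i _ => zpow_ne_zero _ (hx i)

theorem mon_sub {x : ι → K} (hx : ∀ i, x i ≠ 0) (m m' : ι → ℤ) :
    mon x (m - m') = mon x m / mon x m' := by
  rw [eq_div_iff (mon_ne_zero hx m'), ← mon_add hx, sub_add_cancel]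

theorem mon_nsmul (x : ι → K) (n : ℕ) (m : ι → ℤ) :
    mon x (n • m) = mon x m ^ n := by
  rw [mon, mon, ← Finset.prod_pow]
  refine Finset.prod_congr rfl fun i _ => ?_
  rw [Pi.smul_apply, nsmul_eq_mul, mul_comm, zpow_mul, zpow_natCast]

theorem mon_nat (x : ι → K) (n : ι → ℕ) : mon x (fun i => (n i : ℤ)) = ∏ i, x i ^ n i :=
  Finset.prod_congr rfl fun i _ => zpow_natCast _ _

/-- The ring `k[x^t : t ∈ T]`. -/
def TA (k : Type u) {K : Type u} [Field k] [Field K] [Algebra k K] {ι : Type*} [Fintype ι]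
    (x : ι → K) (T : AddSubmonoid (ι → ℤ)) : Subalgebra k K :=
  Algebra.adjoin k (mon x '' T)

theorem mon_mem_TA (x : ι → K) {T : AddSubmonoid (ι → ℤ)} {t : ι → ℤ} (ht : t ∈ T) :
    mon x t ∈ TA k x T := Algebra.subset_adjoin ⟨t, ht, rfl⟩

theorem mem_TA_iff {x : ι → K} (hx : ∀ i, x i ≠ 0) {T : AddSubmonoid (ι → ℤ)} {y : K} :
    y ∈ TA k x T ↔ y ∈ Submodule.span k (mon x '' (T : Set (ι → ℤ))) := by
  constructor
  · intro h
    induction h using Algebra.adjoin_induction with
    | mem y hy => exact Submodule.subset_span hy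
    | algebraMap r =>
      rw [Algebra.algebraMap_eq_smul_one]
      exact Submodule.smul_mem _ _ (Submodule.subset_span ⟨0, T.zero_mem, mon_zero x⟩)
    | add y z _ _ hy hz => exact Submodule.add_mem _ hy hz
    | mul y z hy' hz' hy hz =>
      clear hy' hz'
      induction hy using Submodule.span_induction with
      | mem y hy =>
        obtain ⟨t, ht, rfl⟩ := hy
        induction hz using Submodule.span_induction with
        | mem z hz =>
          obtain ⟨t', ht', rfl⟩ := hz
          exact Submodule.subset_span ⟨t + t', T.add_mem ht ht', mon_add hx t t'⟩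
        | zero => rw [mul_zero]; exact Submodule.zero_mem _
        | add a b _ _ ha hb => rw [mul_add]; exact Submodule.add_mem _ ha hb
        | smul c a _ ha => rw [mul_smul_comm]; exact Submodule.smul_mem _ _ ha
      | zero => rw [zero_mul]; exact Submodule.zero_mem _
      | add a b _ _ ha hb => rw [add_mul]; exact Submodule.add_mem _ ha hb
      | smul c a _ ha => rw [smul_mul_assoc]; exact Submodule.smul_mem _ _ ha
  · intro h
    induction h using Submodule.span_induction with
    | mem y hy => exact Algebra.subset_adjoin hy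
    | zero => exact Subalgebra.zero_mem _
    | add y z _ _ hy hz => exact Subalgebra.add_mem _ hy hz
    | smul c y _ hy => exact Subalgebra.smul_mem _ hy c

theorem nrm_of_isIntegrallyClosed {A : Subalgebra k K} (h : IsIntegrallyClosed A) : Nrm A := by
  let : Algebra (FractionRing A) K := FractionRing.liftAlgebra A K
  have : IsScalarTower A (FractionRing A) K := FractionRing.isScalarTower_liftAlgebra A K
  rintro _ hx ⟨b, hb, c, hc, hc0, rfl⟩
  have h1 : algebraMap (FractionRing A) K (algebraMap A _ ⟨b, hb⟩ / algebraMap A _ ⟨c, hc⟩)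
      = b / c := by
    rw [map_div₀, ← IsScalarTower.algebraMap_apply, ← IsScalarTower.algebraMap_apply]
    rfl
  have h2 : IsIntegral A (algebraMap A (FractionRing A) ⟨b, hb⟩ / algebraMap A _ ⟨c, hc⟩) := by
    rw [← isIntegral_algebraMap_iff (algebraMap (FractionRing A) K).injective, h1]
    exact hx
  obtain ⟨z, hz⟩ := (isIntegrallyClosed_iff (FractionRing A)).1 h h2
  rw [← h1, ← hz, ← IsScalarTower.algebraMap_apply]
  exact z.2

omit [Fintype ι] in
theorem nrm_adjoin {x : ι → K} (hx : AlgebraicIndependent k x) :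
    Nrm (Algebra.adjoin k (Set.range x)) :=
  nrm_of_isIntegrallyClosed (IsIntegrallyClosed.of_equiv hx.aevalEquiv.toRingEquiv)

omit [Fintype ι] in
theorem ne_zero_of_indep {x : ι → K} (hx : AlgebraicIndependent k x) (i : ι) : x i ≠ 0 := fun h => by
  have := (algebraicIndependent_iff_injective_aeval.1 hx)
    (a₁ := MvPolynomial.X i) (a₂ := 0) (by rw [MvPolynomial.aeval_X, map_zero, h])
  exact MvPolynomial.X_ne_zero i this

theorem mon_mem_adjoin (x : ι → K) {m : ι → ℤ} (hm : ∀ i, 0 ≤ m i) :
    mon x m ∈ Algebra.adjoin k (Set.range x) := by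
  refine Subalgebra.prod_mem _ fun i _ => ?_
  obtain ⟨n, hn⟩ := Int.eq_ofNat_of_zero_le (hm i)
  rw [hn, zpow_natCast]
  exact Subalgebra.pow_mem _ (Algebra.subset_adjoin (Set.mem_range_self i)) n

/-- Clearing denominators. -/
theorem exists_clear {x : ι → K} (hx : ∀ i, x i ≠ 0) {T : AddSubmonoid (ι → ℤ)} {a : K}
    (ha : a ∈ TA k x T) : ∃ J : ℕ, ∀ J' ≥ J, mon x (fun _ => (J' : ℤ)) * a ∈
      Algebra.adjoin k (Set.range x) := by
  rw [mem_TA_iff hx] at ha
  induction ha using Submodule.span_induction with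
  | mem y hy =>
    obtain ⟨t, ht, rfl⟩ := hy
    refine ⟨∑ i, (t i).natAbs, fun J' hJ => ?_⟩
    rw [← mon_add hx]
    refine mon_mem_adjoin x fun i => ?_
    have h1 : (t i).natAbs ≤ ∑ i, (t i).natAbs :=
      Finset.single_le_sum (f := fun i => (t i).natAbs) (fun _ _ => Nat.zero_le _) (Finset.mem_univ i)
    rw [Pi.add_apply]
    omega
  | zero => exact ⟨0, fun _ _ => by rw [mul_zero]; exact Subalgebra.zero_mem _⟩
  | add a b _ _ ha hb =>
    obtain ⟨J₁, h₁⟩ := ha
    obtain ⟨J₂, h₂⟩ := hb
    refine ⟨max J₁ J₂, fun J' hJ => ?_⟩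
    rw [mul_add]
    exact Subalgebra.add_mem _ (h₁ J' (le_trans (le_max_left _ _) hJ))
      (h₂ J' (le_trans (le_max_right _ _) hJ))
  | smul c a _ ha =>
    obtain ⟨J, h⟩ := ha
    refine ⟨J, fun J' hJ => ?_⟩
    rw [mul_smul_comm]
    exact Subalgebra.smul_mem _ (h J' hJ) c

/-- The order of a monomial. -/
theorem order_mon {F : Type*} [Field F] [Algebra (MvPolynomial ι k) F]
    [IsFractionRing (MvPolynomial ι k) F] (l m : ι → ℤ) :
    (Ps k l (mon (fun i => algebraMap (MvPolynomial ι k) F (MvPolynomial.X i)) m)).order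
      = pr l m := by
  classical
  set ξ : ι → F := fun i => algebraMap (MvPolynomial ι k) F (MvPolynomial.X i) with hξ
  have hξ0 : ∀ i, ξ i ≠ 0 := fun i h =>
    MvPolynomial.X_ne_zero i ((IsFractionRing.injective (MvPolynomial ι k) F)
      (h.trans (map_zero _).symm))
  let φ : (ι → ℤ) →+ ℤ :=
    { toFun := fun m => (Ps k l (mon ξ m)).order
      map_zero' := by rw [mon_zero, map_one, HahnSeries.order_one]
      map_add' := fun m m' => by
        rw [mon_add hξ0, map_mul, HahnSeries.order_mul (Ps_ne_zero l (mon_ne_zero hξ0 m))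
          (Ps_ne_zero l (mon_ne_zero hξ0 m'))] }
  let ψ : (ι → ℤ) →+ ℤ :=
    { toFun := fun m => pr l m
      map_zero' := pr_zero l
      map_add' := pr_add l }
  have h1 : ∀ i, φ (Pi.single i 1) = ψ (Pi.single i 1) := by
    intro i
    have h2 : mon ξ (Pi.single i 1) = ξ i := by
      rw [mon, Finset.prod_eq_single i]
      · rw [Pi.single_eq_same, zpow_one]
      · intro j _ hj
        rw [Pi.single_eq_of_ne hj, zpow_zero]
      · exact fun h => absurd (Finset.mem_univ i) h
    have h3 : pr l (Pi.single i 1) = l i := by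
      rw [pr, Finset.sum_eq_single i]
      · rw [Pi.single_eq_same, mul_one]
      · intro j _ hj
        rw [Pi.single_eq_of_ne hj, mul_zero]
      · exact fun h => absurd (Finset.mem_univ i) h
    change (Ps k l (mon ξ (Pi.single i 1))).order = pr l (Pi.single i 1)
    rw [h2, h3, hξ, Ps_algebraMap, ps, MvPolynomial.coe_eval₂Hom, MvPolynomial.eval₂_X,
      HahnSeries.order_single (hξ0 i)]
  have h2 : φ = ψ := by
    refine AddMonoidHom.functions_ext _ _ _ fun i z => ?_
    have h3 : (Pi.single i z : ι → ℤ) = z • Pi.single i 1 := by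
      rw [← Pi.single_smul, smul_eq_mul, mul_one]
    rw [h3, map_zsmul, map_zsmul, h1]
  exact DFunLike.congr_fun h2 m

/-- **Roots over a toric ring.** -/
theorem toric_root {x : ι → K} (hx : AlgebraicIndependent k x) {T : AddSubmonoid (ι → ℤ)}
    (hT : T.FG) (hs : Sat T) {e : ℕ} (he : 0 < e) {d : ι → ℤ} {y : K}
    (hy : y ∈ frac (Algebra.adjoin k (Set.range x))) (h : y ^ e / mon x d ∈ ncl (TA k x T)) :
    y ∈ Submodule.span k (mon x '' {m | e • m - d ∈ T}) := by
  classical
  have hx0 := ne_zero_of_indep hx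
  obtain ⟨q, hq, hqc, hq0⟩ := exists_poly_of_mem_ncl h
  -- a common denominator
  obtain ⟨J, hJ⟩ : ∃ J : ℕ, ∀ J' ≥ J, ∀ i, mon x (fun _ => (J' : ℤ)) * q.coeff i ∈
      Algebra.adjoin k (Set.range x) := by
    have h1 : ∀ s : Finset ℕ, ∃ J : ℕ, ∀ J' ≥ J, ∀ i ∈ s, mon x (fun _ => (J' : ℤ)) * q.coeff i ∈
        Algebra.adjoin k (Set.range x) := by
      intro s
      induction s using Finset.induction_on with
      | empty => exact ⟨0, fun _ _ i hi => absurd hi (Finset.notMem_empty i)⟩
      | insert i s _ ih =>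
        obtain ⟨J₁, h₁⟩ := ih
        obtain ⟨J₂, h₂⟩ := exists_clear hx0 (hqc i)
        refine ⟨max J₁ J₂, fun J' hJ j hj => ?_⟩
        rcases Finset.mem_insert.1 hj with rfl | hj
        · exact h₂ J' (le_trans (le_max_right _ _) hJ)
        · exact h₁ J' (le_trans (le_max_left _ _) hJ) j hj
    obtain ⟨J, hJ⟩ := h1 (Finset.range (q.natDegree + 1))
    refine ⟨J, fun J' hJ' i => ?_⟩
    by_cases hi : i ∈ Finset.range (q.natDegree + 1)
    · exact hJ J' hJ' i hi
    · rw [Finset.mem_range, not_lt] at hi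
      rw [Polynomial.coeff_eq_zero_of_natDegree_lt (by omega), mul_zero]
      exact Subalgebra.zero_mem _
  set P := Algebra.adjoin k (Set.range x) with hP
  have hPn : Nrm P := nrm_adjoin hx
  -- `X^J (y^e / x^d)` is integral over `P`
  have h2 : ∀ J' ≥ J, mon x (fun _ => (J' : ℤ)) * (y ^ e / mon x d) ∈ ncl P := by
    intro J' hJ'
    set s := mon x (fun _ => (J' : ℤ)) with hs'
    have hsP : s ∈ P := mon_mem_adjoin x fun i => Int.natCast_nonneg _
    refine mem_ncl_of_root (q.scaleRoots s) ((Polynomial.monic_scaleRoots_iff s).2 hq)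
      (fun i => le_ncl P ?_) ?_
    · rw [Polynomial.coeff_scaleRoots]
      rcases lt_trichotomy i q.natDegree with h | h | h
      · have h3 : q.coeff i * s ^ (q.natDegree - i) =
            (s * q.coeff i) * s ^ (q.natDegree - i - 1) := by
          obtain ⟨j, hj⟩ := Nat.exists_eq_add_of_lt h
          rw [show q.natDegree - i = j + 1 by omega, show j + 1 - 1 = j by omega]
          ring
        rw [h3]
        exact P.mul_mem (hJ J' hJ' i) (P.pow_mem hsP _)
      · rw [h, hq.coeff_natDegree, Nat.sub_self, pow_zero, mul_one]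
        exact P.one_mem
      · rw [Polynomial.coeff_eq_zero_of_natDegree_lt h, zero_mul]
        exact P.zero_mem
    · have h4 := Polynomial.scaleRoots_eval₂_mul (p := q) (f := RingHom.id K)
        (r := y ^ e / mon x d) (s := s)
      simp only [RingHom.id_apply] at h4
      rw [← Polynomial.eval₂_id, h4, Polynomial.eval₂_id, hq0, mul_zero]
  -- a denominator of `x ^ d`
  obtain ⟨M, hM⟩ : ∃ M : ℕ, ∀ i, 0 ≤ d i + (e * M - J : ℤ) := by
    refine ⟨J + ∑ i, (d i).natAbs, fun i => ?_⟩
    have h1 : (d i).natAbs ≤ ∑ i, (d i).natAbs :=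
      Finset.single_le_sum (f := fun i => (d i).natAbs) (fun _ _ => Nat.zero_le _) (Finset.mem_univ i)
    have h3 : (1 : ℤ) ≤ e := by exact_mod_cast he
    have h4 : ((J + ∑ i, (d i).natAbs : ℕ) : ℤ) ≤ e * ((J + ∑ i, (d i).natAbs : ℕ) : ℤ) := by
      nlinarith [Int.natCast_nonneg (J + ∑ i, (d i).natAbs)]
    have h5 : ((d i).natAbs : ℤ) ≤ ((∑ i, (d i).natAbs : ℕ) : ℤ) := by exact_mod_cast h1
    push_cast at h4 h5 ⊢
    have h6 : -(d i) ≤ |d i| := neg_le_abs _
    linarith
  set X := mon x (fun _ => (M : ℤ)) with hX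
  have hX0 : X ≠ 0 := mon_ne_zero hx0 _
  have hXP : X ∈ P := mon_mem_adjoin x fun i => Int.natCast_nonneg _
  have h3 : X * y ∈ P := by
    refine hPn _ ?_ ?_
    · have h4 : (X * y) ^ e ∈ ncl P := by
        have h5 : (X * y) ^ e = (mon x (fun _ => (J : ℤ)) * (y ^ e / mon x d)) *
            mon x (fun i => d i + (e * M - J : ℤ)) := by
          have h6 : (fun i => d i + (e * M - J : ℤ)) = (d + e • (fun _ => (M : ℤ)))
              - (fun _ => (J : ℤ)) := by
            funext i
            change d i + (e * M - J : ℤ) = d i + e • (M : ℤ) - J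
            rw [nsmul_eq_mul]
            ring
          rw [h6, mon_sub hx0, mon_add hx0, mon_nsmul, mul_pow, ← hX]
          have h7 := mon_ne_zero hx0 d
          have h8 := mon_ne_zero hx0 (fun _ => (J : ℤ))
          field_simp
        rw [h5]
        exact Subalgebra.mul_mem _ (h2 J le_rfl) (le_ncl P (mon_mem_adjoin x hM))
      exact IsIntegral.of_pow he h4
    · obtain ⟨b, hb, c, hc, hc0, rfl⟩ := hy
      exact ⟨X * b, P.mul_mem hXP hb, c, hc, hc0, by rw [mul_div_assoc]⟩
  -- the polynomial
  obtain ⟨p, hp⟩ : ∃ p : MvPolynomial ι k, MvPolynomial.aeval x p = X * y := by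
    rw [hP, Algebra.adjoin_range_eq_range_aeval] at h3
    exact h3
  have hinj := algebraicIndependent_iff_injective_aeval.1 hx
  let F := FractionRing (MvPolynomial ι k)
  let ξ : ι → F := fun i => algebraMap (MvPolynomial ι k) F (MvPolynomial.X i)
  have hξ0 : ∀ i, ξ i ≠ 0 := fun i h =>
    MvPolynomial.X_ne_zero i ((IsFractionRing.injective (MvPolynomial ι k) F)
      (h.trans (map_zero _).symm))
  let j : F →+* K := IsFractionRing.lift (A := MvPolynomial ι k) (g := (MvPolynomial.aeval x :
    MvPolynomial ι k →ₐ[k] K).toRingHom) hinj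
  have hj : ∀ p, j (algebraMap (MvPolynomial ι k) F p) = MvPolynomial.aeval x p := fun p =>
    IsFractionRing.lift_algebraMap (A := MvPolynomial ι k) (K := F) hinj p
  have hjm : ∀ m, j (mon ξ m) = mon x m := by
    intro m
    rw [mon, mon, map_prod]
    refine Finset.prod_congr rfl fun i _ => ?_
    rw [map_zpow₀, hj, MvPolynomial.aeval_X]
  -- the support
  have key : ∀ n ∈ p.support, e • ((fun i => (n i : ℤ)) - (fun _ => (M : ℤ)) : ι → ℤ) - d ∈ T := by
    intro n hn
    by_contra hcon
    obtain ⟨l, hl, hlt⟩ := exists_sep hT hs hcon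
    have hp0 : p ≠ 0 := by
      rintro rfl
      simp at hn
    set η : F := algebraMap (MvPolynomial ι k) F p with hη
    have hη0 : η ≠ 0 := fun h => hp0 ((IsFractionRing.injective (MvPolynomial ι k) F)
      (h.trans (map_zero _).symm))
    set ζ : F := (η / mon ξ (fun _ => (M : ℤ))) ^ e / mon ξ d with hζ
    have hζ0 : ζ ≠ 0 := div_ne_zero (pow_ne_zero _ (div_ne_zero hη0 (mon_ne_zero hξ0 _)))
      (mon_ne_zero hξ0 _)
    have hjζ : j ζ = y ^ e / mon x d := by
      rw [hζ, map_div₀, map_pow, map_div₀, hjm, hjm, hj, hp, ← hX]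
      rw [mul_div_cancel_left₀ _ hX0]
    have hTW : ∀ c ∈ TA k x T, ∃ γ ∈ Wl k (F := F) l, j γ = c := by
      intro c hc
      rw [mem_TA_iff hx0] at hc
      induction hc using Submodule.span_induction with
      | mem c hc =>
        obtain ⟨t, ht, rfl⟩ := hc
        refine ⟨mon ξ t, Or.inr ?_, hjm t⟩
        rw [order_mon]
        exact hl t ht
      | zero => exact ⟨0, ValuationSubring.zero_mem _, map_zero _⟩
      | add a b _ _ ha hb =>
        obtain ⟨α, hα, rfl⟩ := ha
        obtain ⟨β, hβ, rfl⟩ := hb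
        exact ⟨α + β, ValuationSubring.add_mem _ _ _ hα hβ, map_add _ _ _⟩
      | smul c a _ ha =>
        obtain ⟨α, hα, rfl⟩ := ha
        refine ⟨algebraMap (MvPolynomial ι k) F (MvPolynomial.C c) * α,
          ValuationSubring.mul_mem _ _ _ ?_ hα, ?_⟩
        · by_cases hc : c = 0
          · rw [hc, map_zero, map_zero]
            exact ValuationSubring.zero_mem _
          · refine Or.inr ?_
            rw [Ps_algebraMap, ps, MvPolynomial.coe_eval₂Hom, MvPolynomial.eval₂_C,
              RingHom.comp_apply, HahnSeries.C_apply, HahnSeries.order_single]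
            intro h
            rw [RingHom.comp_apply] at h
            exact hc (MvPolynomial.C_injective ι k ((IsFractionRing.injective
              (MvPolynomial ι k) F (h.trans (map_zero _).symm)).trans (map_zero _).symm))
        · rw [map_mul, hj, MvPolynomial.aeval_C, Algebra.smul_def]
    have hlift : q ∈ Polynomial.lifts j := by
      rw [Polynomial.lifts_iff_coeff_lifts]
      intro i
      obtain ⟨γ, -, hγ⟩ := hTW _ (hqc i)
      exact ⟨γ, hγ⟩
    obtain ⟨q', hq', -, hq'm⟩ := Polynomial.lifts_and_natDegree_eq_and_monic hlift hq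
    have hq'c : ∀ i, q'.coeff i ∈ Wl k (F := F) l := by
      intro i
      obtain ⟨γ, hγW, hγ⟩ := hTW _ (hqc i)
      have : q'.coeff i = γ := j.injective (by rw [hγ, ← hq', Polynomial.coeff_map])
      rw [this]
      exact hγW
    have hζW : ζ ∈ Wl k (F := F) l := by
      have h5 : q' ∈ Polynomial.lifts (algebraMap (Wl k (F := F) l) F) := by
        rw [Polynomial.lifts_iff_coeff_lifts]
        exact fun i => ⟨⟨_, hq'c i⟩, rfl⟩
      obtain ⟨q'', hq'', -, hq''m⟩ := Polynomial.lifts_and_natDegree_eq_and_monic h5 hq'm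
      have h6 : IsIntegral (Wl k (F := F) l) ζ := by
        refine ⟨q'', hq''m, ?_⟩
        rw [← Polynomial.eval_map, hq'']
        apply j.injective
        rw [map_zero, ← Polynomial.eval₂_hom, ← Polynomial.eval_map, hq', hjζ, hq0]
      obtain ⟨w, hw⟩ := (IsIntegrallyClosed.isIntegral_iff (R := Wl k (F := F) l) (K := F)).1 h6
      rw [← hw]
      exact w.2
    have h5 : 0 ≤ (Ps k l ζ).order := hζW.resolve_left hζ0
    have h6 : ζ * (mon ξ d * mon ξ (fun _ => (M : ℤ)) ^ e) = η ^ e := by
      rw [hζ, div_pow, div_mul_eq_mul_div, mul_comm (mon ξ d), ← mul_assoc,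
        mul_div_assoc, div_self (mon_ne_zero hξ0 d), mul_one,
        div_mul_cancel₀ _ (pow_ne_zero e (mon_ne_zero hξ0 (fun _ => (M : ℤ))))]
    have h7 : (Ps k l (ζ * (mon ξ d * mon ξ (fun _ => (M : ℤ)) ^ e))).order
        = (Ps k l (η ^ e)).order := by rw [h6]
    rw [map_mul, map_mul, map_pow, map_pow, HahnSeries.order_mul (Ps_ne_zero l hζ0)
      (mul_ne_zero (Ps_ne_zero l (mon_ne_zero hξ0 _))
        (pow_ne_zero _ (Ps_ne_zero l (mon_ne_zero hξ0 _)))),
      HahnSeries.order_mul (Ps_ne_zero l (mon_ne_zero hξ0 _))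
        (pow_ne_zero _ (Ps_ne_zero l (mon_ne_zero hξ0 _))), HahnSeries.order_pow,
      HahnSeries.order_pow, order_mon, order_mon] at h7
    have h8 : (Ps k l η).order ≤ pr l (fun i => (n i : ℤ)) := by
      rw [hη, Ps_algebraMap]
      exact HahnSeries.order_le_of_coeff_ne_zero (ps_coeff l p hn)
    rw [pr_sub, pr_nsmul, pr_sub] at hlt
    simp only [nsmul_eq_mul] at h7
    have h9 : (e : ℤ) * (Ps k l η).order ≤ e * pr l (fun i => (n i : ℤ)) :=
      mul_le_mul_of_nonneg_left h8 (Int.natCast_nonneg e)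
    nlinarith
  -- the conclusion
  have h5 : y = ∑ n ∈ p.support, p.coeff n • mon x ((fun i => (n i : ℤ)) - (fun _ => (M : ℤ))) := by
    have h6 : X * y = ∑ n ∈ p.support, p.coeff n • mon x (fun i => (n i : ℤ)) := by
      rw [← hp]
      conv_lhs => rw [p.as_sum, map_sum]
      refine Finset.sum_congr rfl fun n _ => ?_
      rw [MvPolynomial.aeval_monomial, Finsupp.prod_fintype _ _ (fun i => pow_zero _),
        Algebra.smul_def, mon_nat]
    have h7 : y = X⁻¹ * (X * y) := by rw [inv_mul_cancel_left₀ hX0]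
    rw [h7, h6, Finset.mul_sum]
    refine Finset.sum_congr rfl fun n _ => ?_
    rw [mul_smul_comm, mon_sub hx0, ← hX, div_eq_inv_mul]
  rw [h5]
  exact Submodule.sum_mem _ fun n hn =>
    Submodule.smul_mem _ _ (Submodule.subset_span ⟨_, key n hn, rfl⟩)

end Mon

end Pool.Agent.TGh53
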