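import Pool.Agent.Lib.TG.Basic

/-!
# TANK G: roots of elements over an etale extension (trace lemma)
-/

set_option autoImplicit false

open Polynomial

namespace Pool.Agent.TGh53

section Abs

variable {R F K : Type*} [CommRing R] [Field F] [Field K] [Algebra R F] [Algebra F K]
  [Algebra R K] [IsScalarTower R F K]

/-- The trace of an `e`-th root of an element of `a · (integral closure)` is an `e`-th root of
an element of `a · (integral closure)`. -/
theorem trace_pow_integral [FiniteDimensional F K] [Algebra.IsSeparable F K] {e : ℕ} (he : 0 < e)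
    {a : F} {z : K} (hz : IsIntegral R (z ^ e / algebraMap F K a)) :
    IsIntegral R ((Algebra.trace F K z) ^ e / a) := by
  classical
  set E := AlgebraicClosure K
  have hinj : Function.Injective (algebraMap F E) := (algebraMap F E).injective
  have hT : IsScalarTower R F E := inferInstance
  have : IsIntegral R (algebraMap F E ((Algebra.trace F K z) ^ e / a)) := by
    rw [map_div₀, map_pow, trace_eq_sum_embeddings E, Fintype.sum_pow, Finset.sum_div]
    refine IsIntegral.sum _ fun p _ => ?_
    refine IsIntegral.of_pow he ?_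
    have h1 : ((∏ i : Fin e, (p i) z) / algebraMap F E a) ^ e
        = ∏ i : Fin e, (p i) (z ^ e / algebraMap F K a) := by
      rw [div_pow, ← Finset.prod_pow]
      have h2 : (algebraMap F E a) ^ e = ∏ _i : Fin e, algebraMap F E a := by
        rw [Finset.prod_const, Finset.card_univ, Fintype.card_fin]
      rw [h2, ← Finset.prod_div_distrib]
      refine Finset.prod_congr rfl fun i _ => ?_
      rw [map_div₀, map_pow, AlgHom.commutes]
    rw [h1]
    refine IsIntegral.prod _ fun i _ => ?_
    exact hz.map ((p i).restrictScalars R)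
  exact (isIntegral_algebraMap_iff hinj).1 this

/-- `μ'(θ) x` is a combination of `e`-th roots in `F`. -/
theorem deriv_mul_mem [IsDomain R] [IsIntegrallyClosed R] [IsFractionRing R F]
    [FiniteDimensional F K] [Algebra.IsSeparable F K] {θ : K} (hθ : IsIntegral R θ)
    (hgen : Algebra.adjoin F {θ} = ⊤) {e : ℕ} (he : 0 < e) {a : F} {x : K}
    (hx : IsIntegral R (x ^ e / algebraMap F K a)) :
    aeval θ (derivative (minpoly F θ)) * x ∈
      Submodule.span (Algebra.adjoin R {θ}) (algebraMap F K '' {y | IsIntegral R (y ^ e / a)}) := by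
  classical
  have hθF : IsIntegral F θ := hθ.tower_top
  set pb : PowerBasis F K := PowerBasis.ofAdjoinEqTop' hθF hgen with hpb
  have hgenθ : pb.gen = θ := PowerBasis.ofAdjoinEqTop'_gen hθF hgen
  have hne : aeval θ (derivative (minpoly F θ)) ≠ 0 :=
    (Algebra.IsSeparable.isSeparable F θ).aeval_derivative_ne_zero (minpoly.aeval F θ)
  have h1 : x = ∑ i : Fin pb.dim, (Algebra.trace F K (x * θ ^ (i : ℕ))) •
      ((minpolyDiv F θ).coeff i / aeval θ (derivative (minpoly F θ))) := by
    conv_lhs => rw [← pb.basis.traceDual.sum_repr x]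
    refine Finset.sum_congr rfl fun i _ => ?_
    rw [Module.Basis.traceDual_repr_apply, Module.Basis.traceDual_powerBasis_eq, hgenθ,
      Algebra.traceForm_apply, PowerBasis.coe_basis, hgenθ]
  have h2 : aeval θ (derivative (minpoly F θ)) * x
      = ∑ i : Fin pb.dim, (minpolyDiv F θ).coeff i *
        algebraMap F K (Algebra.trace F K (x * θ ^ (i : ℕ))) := by
    conv_lhs => rw [h1]
    rw [Finset.mul_sum]
    refine Finset.sum_congr rfl fun i _ => ?_
    rw [Algebra.smul_def]
    field_simp
  rw [h2]
  refine Submodule.sum_mem _ fun i _ => ?_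
  have h3 : (minpolyDiv F θ).coeff i ∈ Algebra.adjoin R {θ} := by
    rw [← minpolyDiv_eq_of_isIntegrallyClosed F hθ]
    exact coeff_minpolyDiv_mem_adjoin θ _
  have h4 : algebraMap F K (Algebra.trace F K (x * θ ^ (i : ℕ))) ∈
      Submodule.span (Algebra.adjoin R {θ}) (algebraMap F K '' {y | IsIntegral R (y ^ e / a)}) := by
    refine Submodule.subset_span ⟨_, ?_, rfl⟩
    refine trace_pow_integral he ?_
    rw [mul_pow, mul_div_right_comm]
    exact hx.mul ((hθ.pow _).pow _)
  exact Submodule.smul_mem _ (⟨_, h3⟩ : Algebra.adjoin R {θ}) h4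

end Abs

section Sub

open Pool.Agent.LU2 (locV le_locV locV_mono locV_le locV_inv locV_mem locV_locV)
open Pool.Agent.TG

universe u

variable {k K : Type u} [Field k] [Field K] [Algebra k K] {V : ValuationSubring K}

/-- The quotients of the elements of `A`. -/
def frac (A : Subalgebra k K) : Set K := {x | ∃ b ∈ A, ∃ c ∈ A, c ≠ 0 ∧ x = b / c}

/-- `A` is integrally closed in its field of fractions. -/
def Nrm (A : Subalgebra k K) : Prop := ∀ x ∈ ncl A, x ∈ frac A → x ∈ A

/-- `A[θ]`. -/
def adj (A : Subalgebra k K) (θ : K) : Subalgebra k K := Algebra.adjoin k ((A : Set K) ∪ {θ})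

theorem le_adj (A : Subalgebra k K) (θ : K) : A ≤ adj A θ := fun _ ha =>
  Algebra.subset_adjoin (Or.inl ha)

theorem mem_adj (A : Subalgebra k K) (θ : K) : θ ∈ adj A θ :=
  Algebra.subset_adjoin (Or.inr rfl)

theorem adj_le {A B : Subalgebra k K} {θ : K} (h : A ≤ B) (hθ : θ ∈ B) : adj A θ ≤ B := by
  refine Algebra.adjoin_le ?_
  rintro x (hx | rfl)
  · exact h hx
  · exact hθ

theorem isIntegrallyClosed_of {A : Subalgebra k K} (hA : Nrm A) : IsIntegrallyClosed A := by
  let : Algebra (FractionRing A) K := FractionRing.liftAlgebra A K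
  have : IsScalarTower A (FractionRing A) K := FractionRing.isScalarTower_liftAlgebra A K
  rw [isIntegrallyClosed_iff (FractionRing A)]
  intro x hx
  obtain ⟨b, c, hc, rfl⟩ := IsFractionRing.div_surjective (A := A) x
  have hc0 : (c : K) ≠ 0 := by
    have := nonZeroDivisors.ne_zero hc
    exact fun h => this (Subtype.ext h)
  have h1 : algebraMap (FractionRing A) K (algebraMap A _ b / algebraMap A _ c) = b / c := by
    rw [map_div₀, ← IsScalarTower.algebraMap_apply, ← IsScalarTower.algebraMap_apply]
    rfl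
  have h2 : IsIntegral A ((b : K) / c) := by
    rw [← h1]
    exact hx.map (IsScalarTower.toAlgHom A (FractionRing A) K)
  have h3 := hA _ h2 ⟨b, b.2, c, c.2, hc0, rfl⟩
  refine ⟨⟨_, h3⟩, ?_⟩
  apply (algebraMap (FractionRing A) K).injective
  rw [h1, ← IsScalarTower.algebraMap_apply]
  rfl

/-- The etale root lemma. -/
theorem etale_root {A : Subalgebra k K} (hAV : ∀ a ∈ A, a ∈ V) (hA : Nrm A) {θ : K}
    {Φ : K[X]} (hΦ : Φ.Monic) (hc : ∀ i, Φ.coeff i ∈ A) (h0 : Φ.eval θ = 0)
    (h1 : V.valuation (Φ.derivative.eval θ) = 1) (hgen : ∀ x : K, x ∈ frac (adj A θ))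
    {e : ℕ} (he : 0 < e) {a : K} (ha : a ∈ frac A) {x : K}
    (hx : x ^ e / a ∈ locV V (ncl A)) :
    x ∈ Submodule.span (locV V (adj A θ)) {y | y ∈ frac A ∧ y ^ e / a ∈ A} := by
  classical
  let : Algebra (FractionRing A) K := FractionRing.liftAlgebra A K
  have : IsScalarTower A (FractionRing A) K := FractionRing.isScalarTower_liftAlgebra A K
  have : IsIntegrallyClosed A := isIntegrallyClosed_of hA
  set F := FractionRing A with hF
  -- fractions
  have hfr : ∀ y : F, algebraMap F K y ∈ frac A := by
    intro y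
    obtain ⟨b, c, hc, rfl⟩ := IsFractionRing.div_surjective (A := A) y
    have hc0 : (c : K) ≠ 0 := by
      have := nonZeroDivisors.ne_zero hc
      exact fun h => this (Subtype.ext h)
    refine ⟨b, b.2, c, c.2, hc0, ?_⟩
    rw [map_div₀, ← IsScalarTower.algebraMap_apply, ← IsScalarTower.algebraMap_apply]
    rfl
  have hfr' : ∀ y ∈ frac A, ∃ z : F, algebraMap F K z = y := by
    rintro y ⟨b, hb, c, hc, hc0, rfl⟩
    refine ⟨algebraMap A F ⟨b, hb⟩ / algebraMap A F ⟨c, hc⟩, ?_⟩
    rw [map_div₀, ← IsScalarTower.algebraMap_apply, ← IsScalarTower.algebraMap_apply]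
    rfl
  -- the polynomial over `A`
  have hl : Φ ∈ Polynomial.lifts (algebraMap A K) := by
    rw [Polynomial.lifts_iff_coeff_lifts]
    exact fun i => ⟨⟨Φ.coeff i, hc i⟩, rfl⟩
  obtain ⟨Φ', hΦ', -, hΦm⟩ := Polynomial.lifts_and_natDegree_eq_and_monic hl hΦ
  have hθ : IsIntegral A θ := ⟨Φ', hΦm, by rw [← Polynomial.eval_map, hΦ', h0]⟩
  have hθF : IsIntegral F θ := hθ.tower_top
  -- generation
  have hBle : ∀ b ∈ adj A θ, b ∈ Algebra.adjoin F {θ} := by
    intro b hb
    induction hb using Algebra.adjoin_induction with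
    | mem y hy =>
      rcases hy with hy | rfl
      · obtain ⟨z, rfl⟩ := hfr' y ⟨y, hy, 1, A.one_mem, one_ne_zero, by rw [div_one]⟩
        exact Subalgebra.algebraMap_mem _ z
      · exact Algebra.self_mem_adjoin_singleton F y
    | algebraMap r =>
      obtain ⟨z, hz⟩ := hfr' (algebraMap k K r) ⟨_, A.algebraMap_mem r, 1, A.one_mem, one_ne_zero,
        by rw [div_one]⟩
      rw [← hz]
      exact Subalgebra.algebraMap_mem _ z
    | add y z _ _ hy hz => exact Subalgebra.add_mem _ hy hz
    | mul y z _ _ hy hz => exact Subalgebra.mul_mem _ hy hz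
  have hgenF : Algebra.adjoin F {θ} = ⊤ := by
    rw [eq_top_iff]
    rintro y -
    obtain ⟨b, hb, c, hc, hc0, rfl⟩ := hgen y
    rw [div_eq_mul_inv]
    refine Subalgebra.mul_mem _ (hBle b hb) ?_
    have hal : IsAlgebraic F c := by
      have h5 : Algebra.adjoin F {θ} ≤ integralClosure F K := by
        rw [Algebra.adjoin_le_iff]
        rintro z rfl
        exact hθF
      exact (h5 (hBle c hc) : IsIntegral F c).isAlgebraic
    exact Subalgebra.inv_mem_of_algebraic (A := Algebra.adjoin F {θ}) (x := ⟨c, hBle c hc⟩) hal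
  have : FiniteDimensional F K := by
    have h5 : (⊤ : Subalgebra F K).toSubmodule.FG := by
      rw [← hgenF]
      exact hθF.fg_adjoin_singleton
    exact ⟨by simpa using h5⟩
  -- the minimal polynomial
  have hμ : minpoly F θ = (minpoly A θ).map (algebraMap A F) :=
    minpoly.isIntegrallyClosed_eq_field_fractions' F hθ
  obtain ⟨Ψ, hΨ⟩ : minpoly A θ ∣ Φ' := by
    refine minpoly.isIntegrallyClosed_dvd hθ ?_
    rw [Polynomial.aeval_def, ← Polynomial.eval_map, hΦ', h0]
  have hd : Φ.derivative.eval θ = aeval θ (derivative (minpoly A θ)) * aeval θ Ψ := by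
    rw [← hΦ', Polynomial.derivative_map, Polynomial.eval_map_algebraMap, hΨ, derivative_mul,
      map_add, map_mul, map_mul, minpoly.aeval, zero_mul, add_zero]
  have hμd : aeval θ (derivative (minpoly F θ)) = aeval θ (derivative (minpoly A θ)) := by
    rw [hμ, derivative_map, aeval_map_algebraMap]
  have hB : ∀ p : A[X], aeval θ p ∈ adj A θ := by
    intro p
    rw [aeval_eq_sum_range]
    refine Subalgebra.sum_mem _ fun i _ => ?_
    rw [Algebra.smul_def]
    exact Subalgebra.mul_mem _ (le_adj A θ (p.coeff i).2)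
      (Subalgebra.pow_mem _ (mem_adj A θ) _)
  have hθV : θ ∈ V := ncl_mem hAV θ hθ
  have hBV : ∀ b ∈ adj A θ, b ∈ V := fun b hb =>
    ncl_mem hAV b (adj_le (le_ncl A) (hθ : θ ∈ ncl A) hb)
  have hv : V.valuation (aeval θ (derivative (minpoly A θ))) = 1 := by
    have h5 := (V.valuation_le_one_iff _).2 (hBV _ (hB (derivative (minpoly A θ))))
    have h6 := (V.valuation_le_one_iff _).2 (hBV _ (hB Ψ))
    rw [hd, map_mul] at h1
    refine le_antisymm h5 ?_
    rw [← h1]
    exact mul_le_of_le_one_right' h6
  have hne : aeval θ (derivative (minpoly F θ)) ≠ 0 := by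
    rw [hμd]
    intro h
    rw [h, map_zero] at hv
    exact zero_ne_one hv
  have hsepθ : IsSeparable F θ := by
    by_contra hcon
    have h5 : (minpoly F θ).derivative = 0 := by
      by_contra h6
      exact hcon ((Polynomial.separable_iff_derivative_ne_zero (minpoly.irreducible hθF)).2 h6)
    rw [h5, map_zero] at hne
    exact hne rfl
  have : Algebra.IsSeparable F K := by
    have h5 : IntermediateField.adjoin F {θ} = ⊤ := by
      rw [eq_top_iff]
      rintro y -
      have h6 : y ∈ Algebra.adjoin F {θ} := by rw [hgenF]; exact Algebra.mem_top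
      exact IntermediateField.algebra_adjoin_le_adjoin F {θ} h6
    rw [← IntermediateField.isSeparable_adjoin_simple_iff_isSeparable] at hsepθ
    rw [h5] at hsepθ
    exact (AlgEquiv.Algebra.isSeparable_iff IntermediateField.topEquiv).1 hsepθ
  obtain ⟨a', ha'⟩ := hfr' a ha
  -- the main step
  have key : ∀ (e : ℕ) (_ : 0 < e) (a : F) (x : K), IsIntegral A (x ^ e / algebraMap F K a) →
      aeval θ (derivative (minpoly A θ)) * x ∈ Submodule.span (adj A θ)
        {y | y ∈ frac A ∧ y ^ e / (algebraMap F K a) ∈ A} := by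
    intro e he a x hx
    have h5 := deriv_mul_mem hθ hgenF he hx
    rw [hμd] at h5
    have h6 : ∀ y ∈ Submodule.span (Algebra.adjoin A {θ})
        (algebraMap F K '' {y | IsIntegral A (y ^ e / a)}),
        y ∈ Submodule.span (adj A θ) {y | y ∈ frac A ∧ y ^ e / (algebraMap F K a) ∈ A} := by
      intro y hy
      induction hy using Submodule.span_induction with
      | mem y hy =>
        obtain ⟨z, hz, rfl⟩ := hy
        refine Submodule.subset_span ⟨hfr z, ?_⟩
        rw [← map_pow, ← map_div₀]
        refine hA _ ?_ (hfr _)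
        exact (hz : IsIntegral A (z ^ e / a)).map (IsScalarTower.toAlgHom A F K)
      | zero => exact Submodule.zero_mem _
      | add y z _ _ hy hz => exact Submodule.add_mem _ hy hz
      | smul c y _ hy =>
        have h7 : (c : K) ∈ adj A θ := by
          have h8 : ∀ d ∈ Algebra.adjoin A {θ}, d ∈ adj A θ := by
            intro d hd
            induction hd using Algebra.adjoin_induction with
            | mem y hy => rw [Set.mem_singleton_iff.1 hy]; exact mem_adj A θ
            | algebraMap r => exact le_adj A θ r.2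
            | add y z _ _ hy hz => exact Subalgebra.add_mem _ hy hz
            | mul y z _ _ hy hz => exact Subalgebra.mul_mem _ hy hz
          exact h8 c c.2
        exact Submodule.smul_mem _ (⟨(c : K), h7⟩ : adj A θ) hy
    exact h6 _ h5
  set δ : K := aeval θ (derivative (minpoly A θ)) with hδ
  have hδB : δ ∈ adj A θ := hB _
  have hδ0 : δ ≠ 0 := fun h => hne (hμd.trans h)
  -- integral elements
  have key1 : ∀ b ∈ ncl A, δ * b ∈ adj A θ := by
    intro b hb
    have h5 := key 1 one_pos 1 b (by rw [map_one, div_one, pow_one]; exact hb)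
    have h6 : ∀ y ∈ Submodule.span (adj A θ)
        {y | y ∈ frac A ∧ y ^ 1 / (algebraMap F K 1) ∈ A}, y ∈ adj A θ := by
      intro y hy
      induction hy using Submodule.span_induction with
      | mem y hy =>
        have h7 := hy.2
        rw [map_one, div_one, pow_one] at h7
        exact le_adj A θ h7
      | zero => exact Subalgebra.zero_mem _
      | add y z _ _ hy hz => exact Subalgebra.add_mem _ hy hz
      | smul c y _ hy => exact Subalgebra.mul_mem _ c.2 hy
    exact h6 _ h5
  obtain ⟨c, hc', b, hb, hvb, hcb⟩ := hx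
  have hb0 : b ≠ 0 := by
    rintro rfl
    rw [map_zero] at hvb
    exact zero_ne_one hvb
  have hbx : IsIntegral A ((b * x) ^ e / algebraMap F K a') := by
    rw [ha', mul_pow, mul_div_assoc, hcb]
    obtain ⟨e', rfl⟩ := Nat.exists_eq_succ_of_ne_zero he.ne'
    rw [pow_succ, show b ^ e' * b * (c / b) = b ^ e' * c by field_simp]
    exact (hb.pow e').mul hc'
  have h5 := key e he a' (b * x) hbx
  rw [ha'] at h5
  -- `x = (δ b)⁻¹ (δ (b x))`
  have h6 : (δ * b)⁻¹ ∈ locV V (adj A θ) := by
    refine locV_inv (le_locV _ (key1 b hb)) ?_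
    rw [map_mul, hv, hvb, one_mul]
  have h7 : x = (δ * b)⁻¹ * (δ * (b * x)) := by field_simp
  have h8 : δ * (b * x) ∈ Submodule.span (locV V (adj A θ)) {y | y ∈ frac A ∧ y ^ e / a ∈ A} := by
    have h9 : ∀ y ∈ Submodule.span (adj A θ) {y | y ∈ frac A ∧ y ^ e / a ∈ A},
        y ∈ Submodule.span (locV V (adj A θ)) {y | y ∈ frac A ∧ y ^ e / a ∈ A} := by
      intro y hy
      induction hy using Submodule.span_induction with
      | mem y hy => exact Submodule.subset_span hy
      | zero => exact Submodule.zero_mem _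
      | add y z _ _ hy hz => exact Submodule.add_mem _ hy hz
      | smul c y _ hy =>
        exact Submodule.smul_mem _ (⟨(c : K), le_locV _ c.2⟩ : locV V (adj A θ)) hy
    exact h9 _ h5
  rw [h7]
  exact Submodule.smul_mem _ (⟨_, h6⟩ : locV V (adj A θ)) h8

/-- The localisation of `A[θ]` is the localisation of the integral closure of `A`. -/
theorem etale_ncl {A : Subalgebra k K} (hAV : ∀ a ∈ A, a ∈ V) (hA : Nrm A) {θ : K}
    {Φ : K[X]} (hΦ : Φ.Monic) (hc : ∀ i, Φ.coeff i ∈ A) (h0 : Φ.eval θ = 0)
    (h1 : V.valuation (Φ.derivative.eval θ) = 1) (hgen : ∀ x : K, x ∈ frac (adj A θ)) :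
    locV V (ncl A) = locV V (adj A θ) := by
  refine le_antisymm (fun x hx => ?_) ?_
  · have h2 := etale_root hAV hA hΦ hc h0 h1 hgen one_pos (a := 1)
      ⟨1, A.one_mem, 1, A.one_mem, one_ne_zero, by rw [div_one]⟩ (x := x)
      (by rw [pow_one, div_one]; exact hx)
    have h3 : ∀ y ∈ Submodule.span (locV V (adj A θ)) {y | y ∈ frac A ∧ y ^ 1 / 1 ∈ A},
        y ∈ locV V (adj A θ) := by
      intro y hy
      induction hy using Submodule.span_induction with
      | mem y hy =>
        have h4 := hy.2
        rw [pow_one, div_one] at h4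
        exact le_locV _ (le_adj A θ h4)
      | zero => exact Subalgebra.zero_mem _
      | add y z _ _ hy hz => exact Subalgebra.add_mem _ hy hz
      | smul c y _ hy => exact Subalgebra.mul_mem _ c.2 hy
    exact h3 _ h2
  · refine locV_mono (adj_le (le_ncl A) ?_)
    have hl : Φ ∈ Polynomial.lifts (algebraMap A K) := by
      rw [Polynomial.lifts_iff_coeff_lifts]
      exact fun i => ⟨⟨Φ.coeff i, hc i⟩, rfl⟩
    obtain ⟨Φ', hΦ', -, hΦm⟩ := Polynomial.lifts_and_natDegree_eq_and_monic hl hΦ
    exact ⟨Φ', hΦm, by rw [← Polynomial.eval_map, hΦ', h0]⟩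

end Sub

end Pool.Agent.TGh53
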